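import Pool.Agent.N748.HM.Stm
import Pool.Agent.N748.GC.ONE
import Pool.Agent.N748.GC.LEN

set_option autoImplicit false

/-!
# Project HM, part SQ2: the factor of the squares is close to `1` in the mean with respect to the weights
-/

namespace Pool.Agent.V5helper73.HM.SQ2

open Finset Filter MeasureTheory MonoidAlgebra Topology Complex
open Pool.Agent.N748.GC Pool.Agent.N748.GC.LEN Pool.Agent.N748.HM
open Pool.Agent.N748.GC.MV (lc1_nonneg lc1_sum lc1_single lc1_add lc1_mul)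

lemma PP_mem {z : ℕ} {y : ℝ} {p : ℕ} (hp : p ∈ PP z y) : p.Prime ∧ z ≤ p ∧ p ≤ ⌊y⌋₊ := by
  unfold PP at hp
  rw [mem_filter, mem_Icc] at hp
  exact ⟨hp.2, hp.1.1, hp.1.2⟩

lemma Q_squares (z : ℕ) {y : ℝ} (hy : 1 ≤ y) :
    Q (Sm z) (y ^ 2) (∑ p ∈ PP z y, single (p ^ 2) (1 / 2 : ℂ)) := by
  have hy0 : 0 ≤ y := by linarith
  constructor
  · refine Cop_sum _ fun p hp => ?_
    intro n hn
    have h1 : n = p ^ 2 := by
      rw [MonoidAlgebra.coeff_single] at hn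
      exact mem_singleton.1 (Finsupp.support_single_subset hn)
    subst h1
    obtain ⟨h2, h3, h4⟩ := PP_mem hp
    refine ⟨pow_ne_zero _ h2.ne_zero, ?_, fun q hq hd => ?_⟩
    · push_cast
      exact pow_le_pow_left₀ (Nat.cast_nonneg _) ((Nat.le_floor_iff hy0).1 h4) 2
    · have h5 := (Nat.prime_dvd_prime_iff_eq (Sm_prime q hq) h2).1 ((Sm_prime q hq).dvd_of_dvd_pow hd)
      unfold Sm at hq
      rw [mem_filter, mem_range] at hq
      omega
  · refine (lc1_sum _ _).trans ?_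
    have h1 : ∀ p ∈ PP z y, lc1 (single (p ^ 2) (1 / 2 : ℂ)) = 1 / 2 := fun p _ => by
      rw [lc1_single]; simp
    rw [sum_congr rfl h1, sum_const, nsmul_eq_mul]
    have h2 : (PP z y).card ≤ ⌊y⌋₊ := by
      refine (card_le_card (t := Icc 1 ⌊y⌋₊) ?_).trans (by simp)
      intro p hp
      obtain ⟨a1, a2, a3⟩ := PP_mem hp
      exact mem_Icc.2 ⟨a1.one_lt.le, a3⟩
    have h3 : ((PP z y).card : ℝ) ≤ y := (Nat.cast_le.2 h2).trans (Nat.floor_le hy0)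
    nlinarith

lemma Q_NKe {z : ℕ} {b : ℝ} (hb : 1 ≤ b) {x : PC} (hx : Q (Sm z) b x) (K : ℕ) {a : ℝ}
    (h0 : 0 ≤ a) : Q (Sm z) (Real.exp a * b ^ K) (NKc K a x) := by
  have hbK : ∀ k ∈ range (K + 1), b ^ k ≤ b ^ K := fun k hk =>
    pow_le_pow_right₀ hb (by have := mem_range.1 hk; omega)
  have hbK0 : 0 ≤ b ^ K := by positivity
  have hea : 1 ≤ Real.exp a := Real.one_le_exp h0
  constructor
  · unfold NKc
    refine Cop_sum _ fun k hk => Cop_smul _ ?_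
    refine Cop_mono ?_ (Q_pow Sm_prime (by linarith) hx k).1
    have := hbK k hk
    nlinarith
  · unfold NKc
    refine (lc1_sum _ _).trans ?_
    calc ∑ k ∈ range (K + 1), lc1 (((a ^ k / (k.factorial : ℝ) : ℝ) : ℂ) • x ^ k)
        ≤ ∑ k ∈ range (K + 1), a ^ k / (k.factorial : ℝ) * b ^ K := by
          refine sum_le_sum fun k hk => ?_
          refine (lc1_smul _ _).trans ?_
          rw [Complex.norm_real, Real.norm_of_nonneg (by positivity)]
          exact mul_le_mul_of_nonneg_left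
            ((Q_pow Sm_prime (by linarith) hx k).2.trans (hbK k hk)) (by positivity)
      _ = (∑ k ∈ range (K + 1), a ^ k / (k.factorial : ℝ)) * b ^ K := by rw [sum_mul]
      _ ≤ Real.exp a * b ^ K :=
        mul_le_mul_of_nonneg_right (Real.sum_le_exp_of_nonneg h0 (K + 1)) hbK0

/-- the length of the factor of the squares -/
lemma Q_GQ {α : ℝ} (hα : 0 ≤ α) (z : ℕ) {y X : ℝ} (hy : 1 ≤ y) (hX : 1 ≤ X) {Kq : ℕ}
    (hK : Kq * Real.log y ≤ Real.log X / 100) :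
    Q (Sm z) (Real.exp α * X ^ ((1:ℝ) / 50) + 1) (GQ α z y Kq - 1) := by
  have h1 := Q_NKe (by nlinarith : (1:ℝ) ≤ y ^ 2) (Q_squares z hy) Kq hα
  have h2 : (y ^ 2) ^ Kq ≤ X ^ ((1:ℝ) / 50) := by
    rw [← pow_mul, ← Real.rpow_natCast, Real.rpow_def_of_pos (by linarith), Real.rpow_def_of_pos (by linarith)]
    refine Real.exp_le_exp.2 ?_
    push_cast
    nlinarith
  have h3 : Q (Sm z) (Real.exp α * X ^ ((1:ℝ) / 50)) (GQ α z y Kq) :=
    Q_mono (mul_le_mul_of_nonneg_left h2 (Real.exp_pos _).le) h1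
  have hpos : 0 ≤ Real.exp α * X ^ ((1:ℝ) / 50) := by positivity
  have h4 : Q (Sm z) 1 ((-1 : ℂ) • (1 : PC)) :=
    ⟨Cop_smul _ (Cop_one Sm_prime le_rfl), (lc1_smul _ _).trans (by rw [lc1_one]; simp)⟩
  have h5 : GQ α z y Kq - 1 = GQ α z y Kq + (-1 : ℂ) • (1 : PC) := by
    rw [neg_one_smul, sub_eq_add_neg]
  rw [h5]
  refine ⟨Cop_add (Cop_mono (by linarith) h3.1) (Cop_mono (by linarith) h4.1), (lc1_add _ _).trans ?_⟩
  exact add_le_add h3.2 h4.2

lemma exp_small (α : ℝ) : ∀ᶠ X : ℝ in atTop,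
    X ^ ((1:ℝ) / 50) * (Real.exp α * X ^ ((1:ℝ) / 50) + 1) ≤ X ^ ((1:ℝ) / 8) := by
  have h1 : Tendsto (fun X : ℝ => X ^ ((1:ℝ) / 20)) atTop atTop := tendsto_rpow_atTop (by norm_num)
  filter_upwards [h1.eventually_ge_atTop (Real.exp α + 1), eventually_ge_atTop (1:ℝ)] with X hX hX1
  have hX0 : 0 < X := by linarith
  have h2 : (1:ℝ) ≤ X ^ ((1:ℝ) / 50) := Real.one_le_rpow hX1 (by norm_num)
  have h3 : X ^ ((1:ℝ) / 50) * X ^ ((1:ℝ) / 50) * X ^ ((1:ℝ) / 20) ≤ X ^ ((1:ℝ) / 8) := by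
    rw [← Real.rpow_add hX0, ← Real.rpow_add hX0]
    exact Real.rpow_le_rpow_of_exponent_le hX1 (by norm_num)
  have h4 : X ^ ((1:ℝ) / 50) * (Real.exp α * X ^ ((1:ℝ) / 50) + 1) ≤
      X ^ ((1:ℝ) / 50) * X ^ ((1:ℝ) / 50) * (Real.exp α + 1) := by
    have : 1 ≤ X ^ ((1:ℝ) / 50) * 1 := by linarith
    have h0 : 0 ≤ X ^ ((1:ℝ) / 50) := by linarith
    nlinarith [mul_nonneg h0 h0, Real.exp_pos α]
  exact h4.trans ((mul_le_mul_of_nonneg_left hX (by positivity)).trans h3)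

lemma sq_diff {g : ℂ} {κ : ℝ} (hκ : 0 < κ) : |‖g‖ ^ 2 - 1| ≤ κ + (1 + 1 / κ) * ‖g - 1‖ ^ 2 := by
  have h1 : |‖g‖ - 1| ≤ ‖g - 1‖ := by
    have := abs_norm_sub_norm_le g 1
    rwa [norm_one] at this
  have h2 : |‖g‖ ^ 2 - 1| ≤ ‖g - 1‖ ^ 2 + 2 * ‖g - 1‖ := by
    have e : ‖g‖ ^ 2 - 1 = (‖g‖ - 1) ^ 2 + 2 * (‖g‖ - 1) := by ring
    rw [e]
    refine (abs_add_le _ _).trans (add_le_add ?_ ?_)
    · rw [abs_pow]
      exact pow_le_pow_left₀ (abs_nonneg _) h1 2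
    · rw [abs_mul, abs_of_pos (by norm_num : (0:ℝ) < 2)]
      linarith
  have h3 : 2 * ‖g - 1‖ ≤ κ + ‖g - 1‖ ^ 2 / κ := by
    have h4 : 0 ≤ (κ - ‖g - 1‖) ^ 2 / κ := by positivity
    have e : (κ - ‖g - 1‖) ^ 2 / κ = κ - 2 * ‖g - 1‖ + ‖g - 1‖ ^ 2 / κ := by
      field_simp
      ring
    linarith
  have e : (1 + 1 / κ) * ‖g - 1‖ ^ 2 = ‖g - 1‖ ^ 2 + ‖g - 1‖ ^ 2 / κ := by ring
  rw [e]
  linarith

theorem t_SQ2 (h1 : S_ONE3) (h2 : S_SQ1) (h3 : S_LEN3) : S_SQ2 := by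
  intro α hα c hc e he
  set κ := min e 1 / 4 with hκ
  have hκ0 : 0 < κ := by positivity
  have hκe : κ ≤ e / 4 := by
    rw [hκ]; have := min_le_left e 1; linarith
  have hκ1 : κ ≤ 1 / 4 := by
    rw [hκ]; have := min_le_right e 1; linarith
  set e1 := e / (2 * (1 + 1 / κ)) with he1
  have he10 : 0 < e1 := by positivity
  obtain ⟨z1, R1, hO⟩ := h1 α hα c hc 1 one_pos
  obtain ⟨z2, R2, hS⟩ := h2 α hα c hc e1 he10
  refine ⟨max z1 (max z2 144), max R1 (max R2 (max 1 ⌈α⌉₊)), fun z hz K _ _ F hF hF0 η hη => ?_⟩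
  have hz1 : z1 ≤ z := (le_max_left _ _).trans hz
  have hz2 : z2 ≤ z := ((le_max_left _ _).trans (le_max_right _ _)).trans hz
  have hz3 : 144 ≤ z := ((le_max_right _ _).trans (le_max_right _ _)).trans hz
  set ε' := η / (2 * (1 + 1 / κ) * (e1 + 1)) with hε'
  have hε'0 : 0 < ε' := by positivity
  have hEQ := EQ.main MV.main (Sm z) Sm_prime K F hF ε' hε'0
  filter_upwards [hEQ, hO z hz1 K F hF hF0 η hη, ONE.Xl_small 1 one_pos, exp_small α,
    eventually_ge_atTop (3:ℝ)] with X hX hOX hXl1 hXe hX3 Rs J Kq y hRs hSP hKq δ hδ k x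
  have hX0 : 0 < X := by linarith
  have hRs1 : R1 ≤ Rs := (le_max_left _ _).trans hRs
  have hRs2 : R2 ≤ Rs := ((le_max_left _ _).trans (le_max_right _ _)).trans hRs
  have hRs3 : 1 ≤ Rs :=
    ((le_max_left _ _).trans ((le_max_right _ _).trans (le_max_right _ _))).trans hRs
  have hRs4 : ⌈α⌉₊ ≤ Rs :=
    ((le_max_right _ _).trans ((le_max_right _ _).trans (le_max_right _ _))).trans hRs
  have hy1 : 1 ≤ y := by
    have h4 : (1:ℝ) ≤ z := by exact_mod_cast (by omega : 1 ≤ z)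
    exact h4.trans hSP.zy
  set B := BP (fun _ => α) z y 0 J Rs with hB
  set E := Real.exp (α ^ 2 * VB δ z y 0 J) with hE
  have hE1 : 1 ≤ E := by
    rw [hE]
    exact Real.one_le_exp (mul_nonneg (sq_nonneg _) (ONE.VB_nonneg _ _ _ _ _))
  have hE0 : 0 < E := by linarith
  -- lengths
  obtain ⟨hcop, hlc⟩ := (h3 ⌈α⌉₊ z J Rs y hz3 hy1 hRs3 hRs4 (fun i hi => (hSP.bl i hi).1)).1
    (fun _ => α) (fun _ => ⟨hα.le, Nat.le_ceil _⟩) 0 (Nat.zero_le _)
  rw [← hB] at hcop hlc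
  have hlen : Real.exp (Real.log y * (90 * ((Rs:ℝ) + 1))) ≤ X ^ ((1:ℝ) / 50) := by
    have a1 : Real.exp (Real.log y * (90 * ((Rs:ℝ) + 1))) ^ 2 ≤ (X ^ ((1:ℝ) / 50)) ^ 2 := by
      have b1 : Real.exp (Real.log y * (90 * ((Rs:ℝ) + 1))) ^ 2 =
          Real.exp (Real.log y * (180 * ((Rs:ℝ) + 1))) := by
        rw [← Real.exp_nat_mul]; congr 1; push_cast; ring
      rw [b1]
      refine hSP.len.trans ?_
      have b2 : (2 * (X + 1)) ^ ((1:ℝ) / 50) ≤ (X ^ 2) ^ ((1:ℝ) / 50) :=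
        Real.rpow_le_rpow (by linarith) (by nlinarith) (by norm_num)
      refine b2.trans (le_of_eq ?_)
      rw [← Real.rpow_natCast X, ← Real.rpow_mul hX0.le, ← Real.rpow_natCast (X ^ ((1:ℝ) / 50)),
        ← Real.rpow_mul hX0.le]
      congr 1
      push_cast; ring
    exact le_of_sq_le_sq a1 (by positivity)
  have hQB : Q (Sm z) (X ^ ((1:ℝ) / 50)) B := ⟨Cop_mono hlen hcop, hlc.trans hlen⟩
  have hQG := Q_GQ hα.le z hy1 (by linarith : 1 ≤ X) hKq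
  have hQD : Q (Sm z) (X ^ ((1:ℝ) / 8)) (B * (GQ α z y Kq - 1)) :=
    Q_mono hXe (Q_mul Sm_prime (by positivity) hQB hQG)
  set D := B * (GQ α z y Kq - 1) with hD
  have hB0 : ∀ n ∈ B.coeff.support, n ≠ 0 := fun n hn => (hcop n hn).1
  have hD0 : ∀ n ∈ D.coeff.support, n ≠ 0 := fun n hn => (hQD.1 n hn).1
  have hG0 : ∀ n ∈ (GQ α z y Kq - 1).coeff.support, n ≠ 0 := fun n hn => (hQG.1 n hn).1
  have hmain := hX (Xl X) hXl1.1 (by linarith [hXl1.2]) k δ hδ (sf x D) (MV.Cop_sf x hQD.1)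
    (by rw [MV.lc1_sf x hD0]; exact hQD.2)
  rw [MV.nn_sf] at hmain
  have hnn : nn δ D ≤ e1 * E := hS z J Rs Kq y hz2 hRs2 hy1 hSP.bJ (fun i hi => (hSP.bl i hi).2) δ hδ
  have hone := hOX Rs J y hRs1 hSP δ hδ k x
  set If := ∫ q, F (k, q) ∂(HP (Sm z)) with hIf
  have hI0 : 0 ≤ If := integral_nonneg fun y => hF0 _
  set n := nn δ D with hn
  have hn0 : 0 ≤ n := MV.nn_nonneg δ D
  set I2 := ∫ t in Xl X..X, F (k, pt (Sm z) t) * ‖ec (1 / 2 + δ + t * I) (sf x D)‖ ^ 2 with hI2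
  have hXp : X ^ ((9:ℝ) / 10) ≤ X := by
    conv_rhs => rw [← Real.rpow_one X]
    exact Real.rpow_le_rpow_of_exponent_le (by linarith) (by norm_num)
  -- the mean square of the difference
  have hI2b : I2 / E ≤ X * (e1 * If + ε' * (e1 + 1)) := by
    rw [div_le_iff₀ hE0]
    have b1 := (abs_le.1 hmain).2
    have b2 : (X - Xl X) * If * n ≤ X * If * (e1 * E) := by
      have c1 : (X - Xl X) * If ≤ X * If := mul_le_mul_of_nonneg_right (by linarith [hXl1.1]) hI0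
      exact mul_le_mul c1 hnn hn0 (by positivity)
    have b3 : X * n + X ^ ((9:ℝ) / 10) ≤ X * ((e1 + 1) * E) := by
      have c1 : X * n ≤ X * (e1 * E) := mul_le_mul_of_nonneg_left hnn hX0.le
      have c2 : X * 1 ≤ X * E := mul_le_mul_of_nonneg_left hE1 hX0.le
      nlinarith
    have b4 := mul_le_mul_of_nonneg_left b3 hε'0.le
    calc I2 ≤ (X - Xl X) * If * n + ε' * (X * n + X ^ ((9:ℝ) / 10)) := by linarith
      _ ≤ X * If * (e1 * E) + ε' * (X * ((e1 + 1) * E)) := add_le_add b2 b4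
      _ = _ := by ring
  -- continuity
  have hFc : Continuous fun t : ℝ => F (k, pt (Sm z) t) :=
    hF.comp (continuous_const.prodMk (EQ.pt_cont _))
  have hcD : Continuous fun t : ℝ => ec (1 / 2 + δ + t * I) (sf x D) :=
    EQ.ec_cont (fun n hn => hD0 n (MV.sf_support x D hn)) δ
  have hcB : Continuous fun t : ℝ => ec (1 / 2 + δ + t * I) (sf x B) :=
    EQ.ec_cont (fun n hn => hB0 n (MV.sf_support x B hn)) δ
  have hcG : Continuous fun t : ℝ => ec (1 / 2 + δ + t * I) (sf x (GQ α z y Kq - 1)) :=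
    EQ.ec_cont (fun n hn => hG0 n (MV.sf_support x _ hn)) δ
  have hW : ∀ t : ℝ, WP α z Rs y J δ (t + x) = ‖ec (1 / 2 + δ + t * I) (sf x B)‖ ^ 2 / E := by
    intro t
    unfold WP
    rw [MV.ec_sf _ _ hB0, ← hB, ← hE]
    congr 4
    push_cast
    ring_nf
  have hGe : ∀ t : ℝ, ec (1 / 2 + δ + (t + x) * I) (GQ α z y Kq) =
      ec (1 / 2 + δ + t * I) (sf x (GQ α z y Kq - 1)) + 1 := by
    intro t
    rw [MV.ec_sf _ _ hG0, map_sub, map_one, sub_add_cancel]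
    congr 2
    ring
  have hpt : ∀ t : ℝ, F (k, pt (Sm z) t) *
      (WP α z Rs y J δ (t + x) * |‖ec (1 / 2 + δ + (t + x) * I) (GQ α z y Kq)‖ ^ 2 - 1|) ≤
      κ * (F (k, pt (Sm z) t) * WP α z Rs y J δ (t + x)) +
        (1 + 1 / κ) / E * (F (k, pt (Sm z) t) * ‖ec (1 / 2 + δ + t * I) (sf x D)‖ ^ 2) := by
    intro t
    have b1 := sq_diff (g := ec (1 / 2 + δ + (t + x) * I) (GQ α z y Kq)) hκ0
    have b2 : ec (1 / 2 + δ + (t + x) * I) (GQ α z y Kq) - 1 =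
        ec (1 / 2 + δ + t * I) (sf x (GQ α z y Kq - 1)) := by
      rw [hGe t]; ring
    rw [b2] at b1
    have b3 : ‖ec (1 / 2 + δ + t * I) (sf x D)‖ ^ 2 =
        ‖ec (1 / 2 + δ + t * I) (sf x B)‖ ^ 2 *
        ‖ec (1 / 2 + δ + t * I) (sf x (GQ α z y Kq - 1))‖ ^ 2 := by
      rw [hD, map_mul, map_mul, norm_mul, mul_pow]
    rw [b3, hW t]
    set w := ‖ec (1 / 2 + δ + t * I) (sf x B)‖ ^ 2 with hw
    have hw0 : 0 ≤ w := sq_nonneg _
    calc F (k, pt (Sm z) t) *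
          (w / E * |‖ec (1 / 2 + δ + (t + x) * I) (GQ α z y Kq)‖ ^ 2 - 1|)
        ≤ F (k, pt (Sm z) t) * (w / E * (κ + (1 + 1 / κ) *
          ‖ec (1 / 2 + δ + t * I) (sf x (GQ α z y Kq - 1))‖ ^ 2)) :=
          mul_le_mul_of_nonneg_left (mul_le_mul_of_nonneg_left b1 (by positivity)) (hF0 _)
      _ = _ := by ring
  have hc1 : Continuous fun t : ℝ => F (k, pt (Sm z) t) *
      (WP α z Rs y J δ (t + x) * |‖ec (1 / 2 + δ + (t + x) * I) (GQ α z y Kq)‖ ^ 2 - 1|) := by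
    simp_rw [hW, hGe]
    exact hFc.mul ((((hcB.norm).pow 2).div_const _).mul
      ((((hcG.add continuous_const).norm.pow 2).sub continuous_const).abs))
  have hc2 : Continuous fun t : ℝ => F (k, pt (Sm z) t) * WP α z Rs y J δ (t + x) := by
    simp_rw [hW]
    exact hFc.mul (((hcB.norm).pow 2).div_const _)
  have hc3 : Continuous fun t : ℝ => F (k, pt (Sm z) t) * ‖ec (1 / 2 + δ + t * I) (sf x D)‖ ^ 2 :=
    hFc.mul (hcD.norm.pow 2)
  have hle : Xl X ≤ X := by linarith [hXl1.2]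
  have hint := intervalIntegral.integral_mono_on (μ := volume) (a := Xl X) (b := X) hle
    (hc1.intervalIntegrable _ _)
    (((hc2.const_mul κ).add (hc3.const_mul _)).intervalIntegrable _ _) (fun t _ => hpt t)
  refine hint.trans ?_
  simp only [Pi.add_apply]
  rw [intervalIntegral.integral_add ((hc2.const_mul κ).intervalIntegrable _ _)
    ((hc3.const_mul _).intervalIntegrable _ _), intervalIntegral.integral_const_mul,
    intervalIntegral.integral_const_mul, ← hI2]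
  have d1 : (∫ t in Xl X..X, F (k, pt (Sm z) t) * WP α z Rs y J δ (t + x)) ≤ X * (2 * If + η) := by
    have := (abs_le.1 hone).2
    linarith
  have d2 : (1 + 1 / κ) / E * I2 ≤ (1 + 1 / κ) * (X * (e1 * If + ε' * (e1 + 1))) := by
    have : (1 + 1 / κ) / E * I2 = (1 + 1 / κ) * (I2 / E) := by ring
    rw [this]
    exact mul_le_mul_of_nonneg_left hI2b (by positivity)
  have d3 : (1 + 1 / κ) * e1 = e / 2 := by
    rw [he1]; field_simp
  have d4 : (1 + 1 / κ) * (ε' * (e1 + 1)) = η / 2 := by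
    rw [hε']; field_simp
  have d5 : κ * (X * (2 * If + η)) ≤ X * (e / 2 * If + η / 2) := by
    have f1 : κ * (2 * If) ≤ e / 2 * If := by nlinarith
    have f2 : κ * η ≤ η / 2 := by nlinarith
    have f3 : κ * (X * (2 * If + η)) = X * (κ * (2 * If) + κ * η) := by ring
    rw [f3]
    exact mul_le_mul_of_nonneg_left (by linarith) hX0.le
  calc κ * (∫ t in Xl X..X, F (k, pt (Sm z) t) * WP α z Rs y J δ (t + x)) + (1 + 1 / κ) / E * I2
      ≤ κ * (X * (2 * If + η)) + (1 + 1 / κ) * (X * (e1 * If + ε' * (e1 + 1))) :=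
        add_le_add (mul_le_mul_of_nonneg_left d1 hκ0.le) d2
    _ ≤ X * (e / 2 * If + η / 2) + X * ((1 + 1 / κ) * e1 * If + (1 + 1 / κ) * (ε' * (e1 + 1))) := by
        refine add_le_add d5 (le_of_eq (by ring))
    _ = X * (e * If + η) := by rw [d3, d4]; ring

end Pool.Agent.V5helper73.HM.SQ2
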