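import Pool.Agent.N748.HM.Stm
import Pool.Agent.N748.GC.TWO
import Pool.Agent.N748.GC.TAIL
import Pool.Agent.N748.GC.COS

set_option autoImplicit false

/-!
# Project HM, part KAP3: the correlations are close to `1` on average
-/

namespace Pool.Agent.V5helper73.HM.KAP3

open Finset Filter MeasureTheory MonoidAlgebra Topology Complex
open Pool.Agent.N748.GC Pool.Agent.N748.HM

lemma norm_one_sub (w : ℂ) : ‖1 - w‖ ≤ Real.exp (-w.re + ‖w‖ ^ 2 / 2) := by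
  have h1 : ‖1 - w‖ ^ 2 = 1 + (-(2 * w.re) + ‖w‖ ^ 2) := by
    rw [← Complex.normSq_eq_norm_sq, ← Complex.normSq_eq_norm_sq, Complex.normSq_apply, Complex.normSq_apply]
    simp only [sub_re, one_re, sub_im, one_im]
    ring
  have h2 : ‖1 - w‖ ^ 2 ≤ Real.exp (-w.re + ‖w‖ ^ 2 / 2) ^ 2 := by
    rw [h1, ← Real.exp_nat_mul]
    have := Real.add_one_le_exp (-(2 * w.re) + ‖w‖ ^ 2)
    refine le_trans (by linarith) (le_trans this (le_of_eq ?_))
    congr 1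
    push_cast
    ring
  exact le_of_sq_le_sq h2 (Real.exp_pos _).le

lemma wd_exp {p : ℕ} (hp : 0 < p) (δ : ℝ) : wd δ p = Real.exp (-((1 + 2 * δ) * Real.log p)) := by
  have hp0 : (0:ℝ) < p := by exact_mod_cast hp
  unfold wd
  rw [Real.rpow_def_of_pos hp0, one_div, ← Real.exp_log hp0, ← Real.exp_neg, ← Real.exp_add, Real.log_exp]
  congr 1
  ring

lemma cpow_eq {p : ℕ} (hp : 0 < p) (δ h : ℝ) : (p:ℂ) ^ (-(1 + 2 * δ + h * I : ℂ)) =
    Complex.exp (((-((1 + 2 * δ) * Real.log p) : ℝ) : ℂ) + ((-(h * Real.log p) : ℝ) : ℂ) * I) := by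
  have hp0 : (p:ℂ) ≠ 0 := by exact_mod_cast hp.ne'
  rw [Complex.cpow_def_of_ne_zero hp0, ← Complex.natCast_log]
  congr 1
  push_cast
  ring

lemma cpow_re {p : ℕ} (hp : 0 < p) (δ h : ℝ) :
    ((p:ℂ) ^ (-(1 + 2 * δ + h * I : ℂ))).re = Real.cos (h * Real.log p) * wd δ p := by
  rw [cpow_eq hp, Complex.exp_re, wd_exp hp]
  simp only [add_re, ofReal_re, mul_re, I_re, mul_zero, ofReal_im, I_im, mul_one, sub_self, add_zero,
    add_im, mul_im, zero_add]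
  rw [Real.cos_neg, mul_comm]

lemma cpow_norm {p : ℕ} (hp : 0 < p) (δ h : ℝ) :
    ‖(p:ℂ) ^ (-(1 + 2 * δ + h * I : ℂ))‖ = wd δ p := by
  rw [cpow_eq hp, Complex.norm_exp, wd_exp hp]
  simp only [add_re, ofReal_re, mul_re, I_re, mul_zero, ofReal_im, I_im, mul_one, sub_self, add_zero]

lemma wd_le {p : ℕ} (hp : 0 < p) {δ : ℝ} (hδ : 0 ≤ δ) : wd δ p ≤ 1 / p := by
  have hp0 : (0:ℝ) < p := by exact_mod_cast hp
  have hl : 0 ≤ Real.log p := Real.log_nonneg (by exact_mod_cast hp)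
  rw [wd_exp hp, one_div, ← Real.exp_log hp0, ← Real.exp_neg, Real.log_exp, Real.exp_le_exp]
  nlinarith

/-- the tail -/
lemma tail_le {C : ℝ} (hC : ∀ (z : ℕ) (δ y : ℝ), 2 ≤ z → 0 < δ → 1 / 4 ≤ δ * Real.log z →
    ∑ p ∈ (Icc z ⌊y⌋₊).filter Nat.Prime, wd δ p ≤ C) {δ y : ℝ} (hδ : 0 < δ) (hy : 2 ≤ y)
    (h1 : 1 ≤ δ * Real.log y) (N : ℕ) :
    ∑ p ∈ (Ico (⌊y⌋₊ + 1) N).filter Nat.Prime, wd δ p ≤ Real.exp (-(δ * Real.log y)) * C := by
  have hy0 : 0 < y := by linarith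
  have hfl : y ≤ ((⌊y⌋₊ + 1 : ℕ) : ℝ) := by
    push_cast
    exact (Nat.lt_floor_add_one y).le
  have h2 := hC (⌊y⌋₊ + 1) (δ / 2) N (by
    have : 2 ≤ ⌊y⌋₊ := Nat.le_floor (by exact_mod_cast hy)
    omega) (by positivity) (by
    have := Real.log_le_log hy0 hfl
    nlinarith)
  rw [Nat.floor_natCast] at h2
  have h3 : ∑ p ∈ (Ico (⌊y⌋₊ + 1) N).filter Nat.Prime, wd δ p ≤
      Real.exp (-(δ * Real.log y)) * ∑ p ∈ (Ico (⌊y⌋₊ + 1) N).filter Nat.Prime, wd (δ / 2) p := by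
    rw [mul_sum]
    refine sum_le_sum fun p hp => ?_
    rw [mem_filter, mem_Ico] at hp
    have hp0 : 0 < p := hp.2.pos
    rw [wd_exp hp0, wd_exp hp0, ← Real.exp_add, Real.exp_le_exp]
    have h4 : Real.log y ≤ Real.log p := Real.log_le_log hy0 (hfl.trans (by exact_mod_cast hp.1.1))
    nlinarith
  refine h3.trans (mul_le_mul_of_nonneg_left (le_trans ?_ h2) (Real.exp_pos _).le)
  refine sum_le_sum_of_subset_of_nonneg ?_ fun p _ _ => MV.wd_nonneg _ _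
  intro p hp
  rw [mem_filter, mem_Ico] at hp
  rw [mem_filter, mem_Icc]
  exact ⟨⟨hp.1.1, hp.1.2.le⟩, hp.2⟩

lemma sq_tail (z : ℕ) (hz : 2 ≤ z) {δ : ℝ} (hδ : 0 ≤ δ) (N : ℕ) :
    ∑ p ∈ (Ico z N).filter Nat.Prime, wd δ p ^ 2 ≤ 2 / z := by
  have h1 : ∑ p ∈ (Ico z N).filter Nat.Prime, wd δ p ^ 2 ≤ ∑ p ∈ Ioo (z - 1) N, (1:ℝ) / (p:ℝ) ^ 2 := by
    refine le_trans (sum_le_sum (g := fun p : ℕ => (1:ℝ) / (p:ℝ) ^ 2) fun p hp => ?_)
      (sum_le_sum_of_subset_of_nonneg ?_ fun p _ _ => by positivity)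
    · rw [mem_filter] at hp
      have := pow_le_pow_left₀ (MV.wd_nonneg δ p) (wd_le hp.2.pos hδ) 2
      rwa [div_pow, one_pow] at this
    · intro p hp
      rw [mem_filter, mem_Ico] at hp
      rw [mem_Ioo]
      omega
  have h2 := sum_Ioo_inv_sq_le (α := ℝ) (z - 1) N
  have h3 : (((z - 1 : ℕ) : ℝ) + 1) = z := by
    have : (z - 1) + 1 = z := Nat.sub_add_cancel (by omega)
    exact_mod_cast this
  rw [h3] at h2
  refine h1.trans (le_trans (le_of_eq ?_) h2)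
  exact sum_congr rfl fun p _ => by rw [one_div]

/-- zeta without the small primes -/
noncomputable def zz (z : ℕ) (δ h : ℝ) : ℂ := riemannZeta (1 + 2 * δ + h * I) *
    ∏ p ∈ Sm z, (1 - (p:ℂ) ^ (-(1 + 2 * δ + h * I : ℂ)))

lemma fac_ne {p : ℕ} (hp : 2 ≤ p) {δ : ℝ} (hδ : 0 < δ) (h : ℝ) : 1 - (p:ℂ) ^ (-(1 + 2 * δ + h * I : ℂ)) ≠ 0 := by
  intro hc
  have h1 : (p:ℂ) ^ (-(1 + 2 * δ + h * I : ℂ)) = 1 := (sub_eq_zero.mp hc).symm
  have h2 := congrArg norm h1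
  rw [cpow_norm (by omega), norm_one] at h2
  have h3 := wd_le (p := p) (by omega) hδ.le
  have h4 : (1:ℝ) / p ≤ 1 / 2 := one_div_le_one_div_of_le (by norm_num) (by exact_mod_cast hp)
  linarith

lemma lower {z : ℕ} (hz : 2 ≤ z) {δ y T : ℝ} (hδ : 0 < δ) (hzy : (z:ℝ) ≤ y) (h : ℝ)
    (hT : ∀ N : ℕ, ∑ p ∈ (Ico (⌊y⌋₊ + 1) N).filter Nat.Prime, wd δ p ≤ T) :
    Real.exp ((∑ p ∈ (Icc z ⌊y⌋₊).filter Nat.Prime, Real.cos (h * Real.log p) * wd δ p) - T - 1 / z) ≤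
      ‖zz z δ h‖ := by
  have hs : 1 < (1 + 2 * δ + h * I : ℂ).re := by
    simp; linarith
  have h1 := (riemannZeta_eulerProduct hs).mul_const (∏ p ∈ Sm z, (1 - (p:ℂ) ^ (-(1 + 2 * δ + h * I : ℂ))))
  have h2 := h1.norm
  refine ge_of_tendsto h2 ?_
  have hzf : z ≤ ⌊y⌋₊ := Nat.le_floor hzy
  filter_upwards [eventually_ge_atTop (⌊y⌋₊ + 1)] with N hN
  have hsm : Sm z ⊆ N.primesBelow := by
    intro p hp
    unfold Sm at hp
    rw [mem_filter, mem_range] at hp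
    rw [Nat.mem_primesBelow]
    exact ⟨by omega, hp.2⟩
  have e1 : (∏ p ∈ N.primesBelow, (1 - (p:ℂ) ^ (-(1 + 2 * δ + h * I : ℂ)))⁻¹) *
      ∏ p ∈ Sm z, (1 - (p:ℂ) ^ (-(1 + 2 * δ + h * I : ℂ))) =
      ∏ p ∈ (Ico z N).filter Nat.Prime, (1 - (p:ℂ) ^ (-(1 + 2 * δ + h * I : ℂ)))⁻¹ := by
    have e2 : N.primesBelow \ Sm z = (Ico z N).filter Nat.Prime := by
      ext p
      rw [Finset.mem_sdiff, Nat.mem_primesBelow, mem_filter, mem_Ico]
      unfold Sm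
      rw [mem_filter, mem_range]
      constructor
      · rintro ⟨⟨a1, a2⟩, a3⟩
        refine ⟨⟨?_, a1⟩, a2⟩
        by_contra hc
        exact a3 ⟨by omega, a2⟩
      · rintro ⟨⟨a1, a2⟩, a3⟩
        exact ⟨⟨a2, a3⟩, fun hc => by omega⟩
    rw [← prod_sdiff hsm, mul_assoc, ← prod_mul_distrib, e2]
    rw [prod_eq_one (s := Sm z) fun p hp => ?_, mul_one]
    refine inv_mul_cancel₀ (fac_ne ?_ hδ h)
    unfold Sm at hp
    exact (mem_filter.1 hp).2.two_le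
  rw [e1, norm_prod]
  have e3 : ∀ p ∈ (Ico z N).filter Nat.Prime,
      Real.exp (Real.cos (h * Real.log p) * wd δ p - wd δ p ^ 2 / 2) ≤
        ‖(1 - (p:ℂ) ^ (-(1 + 2 * δ + h * I : ℂ)))⁻¹‖ := by
    intro p hp
    have hp' := (mem_filter.1 hp).2
    have a1 := norm_one_sub ((p:ℂ) ^ (-(1 + 2 * δ + h * I : ℂ)))
    rw [cpow_re hp'.pos, cpow_norm hp'.pos] at a1
    have a2 : 0 < ‖1 - (p:ℂ) ^ (-(1 + 2 * δ + h * I : ℂ))‖ := norm_pos_iff.2 (fac_ne hp'.two_le hδ h)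
    rw [norm_inv, le_inv_comm₀ (Real.exp_pos _) a2, ← Real.exp_neg]
    refine a1.trans (le_of_eq ?_)
    congr 1
    ring
  refine le_trans ?_ (prod_le_prod (fun p _ => (Real.exp_pos _).le) e3)
  rw [← Real.exp_sum, Real.exp_le_exp, sum_sub_distrib, ← sum_div]
  have hsq := sq_tail z hz hδ.le N
  have hsplit : ∑ p ∈ (Ico z N).filter Nat.Prime, Real.cos (h * Real.log p) * wd δ p =
      ∑ p ∈ (Icc z ⌊y⌋₊).filter Nat.Prime, Real.cos (h * Real.log p) * wd δ p +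
      ∑ p ∈ (Ico (⌊y⌋₊ + 1) N).filter Nat.Prime, Real.cos (h * Real.log p) * wd δ p := by
    rw [← sum_union]
    · congr 1
      ext p
      simp only [mem_union, mem_filter, mem_Ico, mem_Icc]
      constructor
      · rintro ⟨⟨a1, a2⟩, a3⟩
        rcases Nat.lt_or_ge ⌊y⌋₊ p with a4 | a4
        · exact Or.inr ⟨⟨a4, a2⟩, a3⟩
        · exact Or.inl ⟨⟨a1, a4⟩, a3⟩
      · rintro (⟨⟨a1, a2⟩, a3⟩ | ⟨⟨a1, a2⟩, a3⟩)
        · exact ⟨⟨a1, by omega⟩, a3⟩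
        · exact ⟨⟨by omega, a2⟩, a3⟩
    · rw [disjoint_left]
      intro p hp hq
      rw [mem_filter, mem_Icc] at hp
      rw [mem_filter, mem_Ico] at hq
      omega
  have htail : -T ≤ ∑ p ∈ (Ico (⌊y⌋₊ + 1) N).filter Nat.Prime, Real.cos (h * Real.log p) * wd δ p := by
    have a1 : -∑ p ∈ (Ico (⌊y⌋₊ + 1) N).filter Nat.Prime, wd δ p ≤
        ∑ p ∈ (Ico (⌊y⌋₊ + 1) N).filter Nat.Prime, Real.cos (h * Real.log p) * wd δ p := by
      rw [← sum_neg_distrib]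
      refine sum_le_sum fun p _ => ?_
      have := Real.neg_one_le_cos (h * Real.log p)
      have := MV.wd_nonneg δ p
      nlinarith
    linarith [hT N]
  rw [hsplit]
  have e4 : (2:ℝ) / z / 2 = 1 / z := by ring
  have : (∑ p ∈ (Ico z N).filter Nat.Prime, wd δ p ^ 2) / 2 ≤ 1 / z := by
    rw [← e4]
    exact div_le_div_of_nonneg_right hsq (by norm_num)
  linarith

lemma zz_cont (z : ℕ) {δ : ℝ} (hδ : 0 < δ) : Continuous (zz z δ) := by
  unfold zz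
  refine Continuous.mul ?_ (continuous_finsetProd _ fun p hp => continuous_const.sub ?_)
  · rw [continuous_iff_continuousAt]
    intro h
    have h1 : (1 + 2 * δ + h * I : ℂ) ≠ 1 := by
      intro hc
      have := congrArg Complex.re hc
      simp at this
      linarith
    exact ContinuousAt.comp (f := fun h : ℝ => (1 + 2 * δ + h * I : ℂ))
      (differentiableAt_riemannZeta h1).continuousAt (by fun_prop)
  · have hp0 : (p:ℂ) ≠ 0 := by
      unfold Sm at hp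
      exact_mod_cast (mem_filter.1 hp).2.ne_zero
    have h2 : Continuous fun h : ℝ => (-(1 + 2 * δ + h * I : ℂ)) := by fun_prop
    exact h2.const_cpow (Or.inl hp0)

lemma KX_cont (α : ℝ) (z : ℕ) (y : ℝ) (J : ℕ) (δ : ℝ) : Continuous (KX α z y J δ) := by
  unfold KX
  refine Real.continuous_exp.comp (continuous_const.mul ?_)
  refine continuous_finsetSum _ fun i _ => continuous_finsetSum _ fun p _ => ?_
  exact (Real.continuous_cos.comp (continuous_id.mul continuous_const)).mul continuous_const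

theorem t_KAP3 (hZ : S_ZML3) : S_KAP3 := by
  intro α hα
  obtain ⟨CT, hCT0, hCT⟩ := TAIL.main COS.mer
  set q := 2 * α ^ 2 with hq
  have hq0 : 0 < q := by positivity
  obtain ⟨C, hC0, hC⟩ := hZ q hq0.le
  refine ⟨3 * C + 2 * q * (CT + 1), by positivity, max 144 ⌈q * (CT + 1)⌉₊, fun z hz => ?_⟩
  have hz1 : 144 ≤ z := (le_max_left _ _).trans hz
  have hz2 : ⌈q * (CT + 1)⌉₊ ≤ z := (le_max_right _ _).trans hz
  have hzr : (144:ℝ) ≤ z := by exact_mod_cast hz1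
  have hz0 : (0:ℝ) < z := by linarith
  have hz3 : q * (CT + 1) / z ≤ 1 := by
    rw [div_le_one hz0]
    exact (Nat.le_ceil _).trans (by exact_mod_cast hz2)
  obtain ⟨H0, hH0, hH⟩ := hC z (by omega)
  refine ⟨H0, Real.log z, hH0, ?_, fun H hHH δ hδ hδ1 y J hzy hbe hlam => ?_⟩
  · rw [← Real.log_exp 1]
    refine Real.log_le_log (Real.exp_pos _) ?_
    have := Real.exp_one_lt_d9
    linarith
  have hlz : 1 ≤ Real.log z := by
    rw [← Real.log_exp 1]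
    refine Real.log_le_log (Real.exp_pos _) ?_
    have := Real.exp_one_lt_d9
    linarith
  have hy2 : 2 ≤ y := by linarith
  have hT : ∀ N : ℕ, ∑ p ∈ (Ico (⌊y⌋₊ + 1) N).filter Nat.Prime, wd δ p ≤ CT / z := by
    intro N
    have a1 := tail_le hCT hδ hy2 (hlz.trans hlam) N
    refine a1.trans ?_
    have a2 : Real.exp (-(δ * Real.log y)) ≤ 1 / z := by
      have a3 : 1 / (z:ℝ) = Real.exp (-Real.log z) := by rw [Real.exp_neg, Real.exp_log hz0, one_div]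
      rw [a3]
      exact Real.exp_le_exp.2 (by linarith)
    calc Real.exp (-(δ * Real.log y)) * CT ≤ 1 / z * CT := mul_le_mul_of_nonneg_right a2 hCT0.le
      _ = CT / z := by ring
  set κ := 2 * (q * (CT + 1) / z) with hκ
  have hκ0 : 0 ≤ κ := by positivity
  have hκ2 : κ ≤ 2 := by linarith
  have hpt : ∀ h : ℝ, max (KX α z y J δ h - 1) 0 ≤ (1 + κ) * max (‖zz z δ h‖ ^ q - 1) 0 + κ := by
    intro h
    have a1 := lower (by omega : 2 ≤ z) hδ hzy h hT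
    set S := ∑ p ∈ (Icc z ⌊y⌋₊).filter Nat.Prime, Real.cos (h * Real.log p) * wd δ p with hS
    have a2 : KX α z y J δ h = Real.exp (q * S) := by
      unfold KX
      rw [range_eq_Ico, TWO.sum_low hz1 (by linarith) (fun p : ℕ => Real.cos (h * Real.log p) * wd δ p)
        (Nat.zero_le J) hbe, TWO.be_zero (by linarith)]
    have a3 : KX α z y J δ h ≤ ‖zz z δ h‖ ^ q * (1 + κ) := by
      rw [a2]
      have b1 : Real.exp (q * S) = Real.exp (S - CT / z - 1 / z) ^ q * Real.exp (q * (CT + 1) / z) := by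
        rw [← Real.exp_mul, ← Real.exp_add]
        congr 1
        ring
      rw [b1]
      refine mul_le_mul (Real.rpow_le_rpow (Real.exp_pos _).le a1 hq0.le) ?_ (Real.exp_pos _).le
        (Real.rpow_nonneg (norm_nonneg _) _)
      have hx0 : 0 ≤ q * (CT + 1) / z := by positivity
      have b2 := Real.exp_bound' hx0 hz3 (n := 2) (by norm_num)
      simp only [sum_range_succ, range_zero, sum_empty, zero_add, pow_zero, Nat.factorial, pow_one] at b2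
      norm_num at b2
      rw [hκ]
      nlinarith
    have a4 : 0 ≤ max (‖zz z δ h‖ ^ q - 1) 0 := le_max_right _ _
    have a5 : ‖zz z δ h‖ ^ q - 1 ≤ max (‖zz z δ h‖ ^ q - 1) 0 := le_max_left _ _
    refine max_le ?_ (by positivity)
    nlinarith
  have hc1 : Continuous fun h : ℝ => max (KX α z y J δ h - 1) 0 :=
    ((KX_cont α z y J δ).sub continuous_const).max continuous_const
  have hc2 : Continuous fun h : ℝ => max (‖zz z δ h‖ ^ q - 1) 0 :=
    (((zz_cont z hδ).norm.rpow_const fun _ => Or.inr hq0.le).sub continuous_const).max continuous_const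
  have hH1 : 1 ≤ H := hH0.trans hHH
  have hint := intervalIntegral.integral_mono_on (μ := volume) (a := 1) (b := H) hH1
    (hc1.intervalIntegrable _ _)
    (((hc2.const_mul (1 + κ)).add continuous_const).intervalIntegrable _ _) (fun t _ => hpt t)
  refine hint.trans ?_
  simp only [Pi.add_apply]
  rw [intervalIntegral.integral_add ((hc2.const_mul _).intervalIntegrable _ _)
    (continuous_const.intervalIntegrable _ _), intervalIntegral.integral_const_mul,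
    intervalIntegral.integral_const]
  have h5 := hH H hHH δ hδ hδ1 q hq0.le le_rfl
  have h6 : ∫ h in (1:ℝ)..H, max (‖zz z δ h‖ ^ q - 1) 0 ≤ C * (z:ℝ) ^ (-(1 / 2 : ℝ)) * H := h5
  have hz4 : (z:ℝ) ^ (-(1 / 2 : ℝ)) ≤ (z:ℝ) ^ (-(1 / 4 : ℝ)) :=
    Real.rpow_le_rpow_of_exponent_le (by linarith) (by norm_num)
  have hz5 : 1 / (z:ℝ) ≤ (z:ℝ) ^ (-(1 / 4 : ℝ)) := by
    rw [one_div, ← Real.rpow_neg_one]
    exact Real.rpow_le_rpow_of_exponent_le (by linarith) (by norm_num)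
  have hzp : 0 < (z:ℝ) ^ (-(1 / 2 : ℝ)) := by positivity
  have hzp4 : 0 < (z:ℝ) ^ (-(1 / 4 : ℝ)) := by positivity
  have hHp : 0 ≤ H := by linarith
  have f1 : (1 + κ) * ∫ h in (1:ℝ)..H, max (‖zz z δ h‖ ^ q - 1) 0 ≤
      3 * (C * (z:ℝ) ^ (-(1 / 4 : ℝ)) * H) := by
    have g1 : C * (z:ℝ) ^ (-(1 / 2 : ℝ)) * H ≤ C * (z:ℝ) ^ (-(1 / 4 : ℝ)) * H :=
      mul_le_mul_of_nonneg_right (mul_le_mul_of_nonneg_left hz4 hC0.le) hHp
    have g2 : 0 ≤ C * (z:ℝ) ^ (-(1 / 4 : ℝ)) * H := by positivity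
    calc (1 + κ) * ∫ h in (1:ℝ)..H, max (‖zz z δ h‖ ^ q - 1) 0
        ≤ (1 + κ) * (C * (z:ℝ) ^ (-(1 / 4 : ℝ)) * H) :=
          mul_le_mul_of_nonneg_left (h6.trans g1) (by linarith)
      _ ≤ 3 * (C * (z:ℝ) ^ (-(1 / 4 : ℝ)) * H) := mul_le_mul_of_nonneg_right (by linarith) g2
  have f2 : (H - 1) • κ ≤ 2 * q * (CT + 1) * (z:ℝ) ^ (-(1 / 4 : ℝ)) * H := by
    rw [smul_eq_mul, hκ]
    have g1 : (2 * (q * (CT + 1) / z)) = 2 * q * (CT + 1) * (1 / z) := by ring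
    rw [g1]
    have g2 : 2 * q * (CT + 1) * (1 / (z:ℝ)) ≤ 2 * q * (CT + 1) * (z:ℝ) ^ (-(1 / 4 : ℝ)) :=
      mul_le_mul_of_nonneg_left hz5 (by positivity)
    calc (H - 1) * (2 * q * (CT + 1) * (1 / z)) ≤ H * (2 * q * (CT + 1) * (z:ℝ) ^ (-(1 / 4 : ℝ))) :=
          mul_le_mul (by linarith) g2 (by positivity) hHp
      _ = _ := by ring
  calc (1 + κ) * (∫ h in (1:ℝ)..H, max (‖zz z δ h‖ ^ q - 1) 0) + (H - 1) • κ
      ≤ 3 * (C * (z:ℝ) ^ (-(1 / 4 : ℝ)) * H) + 2 * q * (CT + 1) * (z:ℝ) ^ (-(1 / 4 : ℝ)) * H :=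
        add_le_add f1 f2
    _ = _ := by ring

end Pool.Agent.V5helper73.HM.KAP3
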